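import Mathlib
import Pool.Agent.Y733.LS.Loc

/-!
# Integral polynomial maps with good reduction and translations: one nonarchimedean place
-/

set_option autoImplicit false
set_option linter.unusedSectionVars false

namespace Pool.Agent.Y733.DYN

open MvPolynomial Pool.Agent.Y733.LS

section Local

variable {R L : Type} [CommRing R] [Field L] {w : AbsoluteValue L ℝ} {N : ℕ}

theorem na_sum (h : Na w) {ι : Type} (s : Finset ι) (f : ι → L) {r : ℝ} (hr : 0 ≤ r)
    (hf : ∀ i ∈ s, w (f i) ≤ r) : w (∑ i ∈ s, f i) ≤ r := by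
  classical
  induction s using Finset.induction_on with
  | empty => simpa using hr
  | insert a s ha ih =>
    rw [Finset.sum_insert ha]
    exact h.le_add (hf a (Finset.mem_insert_self a s))
      (ih fun i hi => hf i (Finset.mem_insert_of_mem hi))

theorem mon_le {M : ℝ} (x : Fin N → L) (hx : ∀ i, w (x i) ≤ M) (s : Fin N →₀ ℕ) :
    w (∏ i, x i ^ s i) ≤ M ^ (∑ i, s i) := by
  rw [map_prod, ← Finset.prod_pow_eq_pow_sum]
  refine Finset.prod_le_prod (fun i _ => w.nonneg _) fun i _ => ?_
  rw [map_pow]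
  exact pow_le_pow_left₀ (w.nonneg _) (hx i) _

/-- a polynomial of degree at most `m` -/
theorem pol_le (h : Na w) {φ : R →+* L} (hφ : ∀ r, w (φ r) ≤ 1) {m : ℕ}
    {p : MvPolynomial (Fin N) R} (hp : ∀ s ∈ p.support, ∑ i, s i ≤ m) {M : ℝ} (hM : 1 ≤ M)
    {x : Fin N → L} (hx : ∀ i, w (x i) ≤ M) : w (eval₂ φ x p) ≤ M ^ m := by
  rw [eval₂_eq']
  refine na_sum h _ _ (by positivity) fun s hs => ?_
  rw [map_mul]
  calc w (φ (coeff s p)) * w (∏ i, x i ^ s i) ≤ 1 * M ^ (∑ i, s i) :=
        mul_le_mul (hφ _) (mon_le x hx s) (w.nonneg _) zero_le_one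
    _ = M ^ (∑ i, s i) := one_mul _
    _ ≤ M ^ m := pow_le_pow_right₀ hM (hp s hs)

/-- homogeneity -/
theorem form_smul {φ : R →+* L} {d : ℕ} {p : MvPolynomial (Fin N) R}
    (hp : ∀ s ∈ p.support, ∑ i, s i = d) (t : L) (u : Fin N → L) :
    eval₂ φ (fun i => t * u i) p = t ^ d * eval₂ φ u p := by
  rw [eval₂_eq', eval₂_eq', Finset.mul_sum]
  refine Finset.sum_congr rfl fun s hs => ?_
  simp only [mul_pow]
  rw [Finset.prod_mul_distrib, Finset.prod_pow_eq_pow_sum, hp s hs]
  ring

/-- no common zero, except `0`, in any field -/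
def NoZero (T : Fin N → MvPolynomial (Fin N) R) : Prop :=
  ∀ (k : Type) [Field k] (ψ : R →+* k) (x : Fin N → k), (∀ i, eval₂ ψ x (T i) = 0) → x = 0

/-- good reduction -/
theorem top_ge (h : Na w) {φ : R →+* L} (hφ : ∀ r, w (φ r) ≤ 1) {d : ℕ}
    {T : Fin N → MvPolynomial (Fin N) R} (hT : ∀ i, ∀ s ∈ (T i).support, ∑ j, s j = d)
    (hreg : NoZero T) (x : Fin N → L) (i0 : Fin N) (hx : x i0 ≠ 0)
    (hmax : ∀ i, w (x i) ≤ w (x i0)) : ∃ i, w (x i0) ^ d ≤ w (eval₂ φ x (T i)) := by
  by_contra hcon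
  push Not at hcon
  have hw : 0 < w (x i0) := w.pos hx
  -- the ring of the integers of `w`
  let O : Subring L :=
    { carrier := {y | w y ≤ 1}
      mul_mem' := fun {a b} ha hb => by
        change w (a * b) ≤ 1
        rw [map_mul]
        exact mul_le_one₀ ha (w.nonneg _) hb
      one_mem' := by
        change w 1 ≤ 1
        rw [map_one]
      add_mem' := fun {a b} ha hb => h.le_add ha hb
      zero_mem' := by
        change w 0 ≤ 1
        rw [map_zero]
        exact zero_le_one
      neg_mem' := fun {a} ha => by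
        change w (-a) ≤ 1
        rw [w.map_neg]
        exact ha }
  let m : Ideal O :=
    { carrier := {y | w (y : L) < 1}
      add_mem' := fun {a b} ha hb => h.lt_add ha hb
      zero_mem' := by
        change w ((0 : O) : L) < 1
        rw [ZeroMemClass.coe_zero, map_zero]
        exact zero_lt_one
      smul_mem' := fun a b hb => by
        change w ((a * b : O) : L) < 1
        rw [Subring.coe_mul, map_mul]
        exact (mul_le_of_le_one_left (w.nonneg _) a.2).trans_lt hb }
  have hm : m ≠ ⊤ := by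
    intro h1
    have h2 : (1 : O) ∈ m := by rw [h1]; trivial
    have h3 : w ((1 : O) : L) < 1 := h2
    rw [OneMemClass.coe_one, map_one] at h3
    exact lt_irrefl _ h3
  obtain ⟨P, hP, hmP⟩ := Ideal.exists_le_maximal m hm
  let _ : Field (O ⧸ P) := Ideal.Quotient.field P
  let φ0 : R →+* O := φ.codRestrict O hφ
  let u : Fin N → O := fun i => ⟨x i / x i0, by
    change w (x i / x i0) ≤ 1
    rw [map_div₀, div_le_one hw]
    exact hmax i⟩
  have hu : ∀ i, ((eval₂ φ0 u (T i) : O) : L) = eval₂ φ (fun j => x j / x i0) (T i) := by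
    intro i
    have := MvPolynomial.hom_eval₂ (T i) φ0 O.subtype u
    rw [Subring.subtype_apply] at this
    rw [this]
    rfl
  have hz : ∀ i, eval₂ ((Ideal.Quotient.mk P).comp φ0) (fun j => Ideal.Quotient.mk P (u j))
      (T i) = 0 := by
    intro i
    have h1 := MvPolynomial.hom_eval₂ (T i) φ0 (Ideal.Quotient.mk P) u
    rw [← h1, Ideal.Quotient.eq_zero_iff_mem]
    apply hmP
    change w ((eval₂ φ0 u (T i) : O) : L) < 1
    rw [hu i]
    have h3 := form_smul (φ := φ) (hT i) (x i0) (fun j => x j / x i0)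
    have h4 : (fun j => x i0 * (x j / x i0)) = x := by
      funext j
      field_simp
    rw [h4] at h3
    have h5 := hcon i
    rw [h3, map_mul, map_pow] at h5
    have h6 : 0 < w (x i0) ^ d := by positivity
    by_contra h7
    push Not at h7
    nlinarith
  have h8 := hreg (O ⧸ P) ((Ideal.Quotient.mk P).comp φ0) _ hz
  have h9 := congrFun h8 i0
  have h10 : u i0 = 1 := by
    apply Subtype.ext
    change x i0 / x i0 = 1
    exact div_self hx
  simp only [h10, map_one, Pi.zero_apply] at h9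
  exact one_ne_zero h9

/-- the local height of the point with the affine coordinates `x` -/
noncomputable def mx (w : AbsoluteValue L ℝ) (x : Fin N → L) : ℝ :=
  ⨆ i : Fin (N + 1), w ((Fin.cons 1 x : Fin (N + 1) → L) i)

theorem one_le_mx (x : Fin N → L) : 1 ≤ mx w x := by
  have h := Finite.le_ciSup (fun i : Fin (N + 1) => w ((Fin.cons 1 x : Fin (N + 1) → L) i)) 0
  simp only [Fin.cons_zero, map_one] at h
  exact h

theorem le_mx (x : Fin N → L) (i : Fin N) : w (x i) ≤ mx w x := by
  have h := Finite.le_ciSup (fun i : Fin (N + 1) => w ((Fin.cons 1 x : Fin (N + 1) → L) i)) i.succ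
  simp only [Fin.cons_succ] at h
  exact h

theorem mx_cases (x : Fin N → L) : mx w x = 1 ∨ ∃ i, mx w x = w (x i) := by
  obtain ⟨i, hi⟩ := exists_eq_ciSup_of_finite
    (f := fun i : Fin (N + 1) => w ((Fin.cons 1 x : Fin (N + 1) → L) i))
  revert hi
  refine Fin.cases ?_ (fun j => ?_) i
  · intro hi
    left
    rw [Fin.cons_zero, map_one] at hi
    exact hi.symm
  · intro hi
    right
    rw [Fin.cons_succ] at hi
    exact ⟨j, hi.symm⟩

/-- the translate of the polynomial map `G` -/
noncomputable def tr (φ : R →+* L) (G : Fin N → MvPolynomial (Fin N) R) (c : Fin N → L)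
    (x : Fin N → L) : Fin N → L := fun i => eval₂ φ x (G i) + c i

/-- integral polynomial maps of degree `d` with good reduction -/
def Reg (d : ℕ) (G : Fin N → MvPolynomial (Fin N) R) : Prop :=
  (∀ i, (G i).totalDegree ≤ d) ∧ NoZero fun i => homogeneousComponent d (G i)

theorem sum_le_deg {p : MvPolynomial (Fin N) R} {d : ℕ} (h : p.totalDegree ≤ d) :
    ∀ s ∈ p.support, ∑ i, s i ≤ d := by
  intro s hs
  have h1 := le_totalDegree hs
  rw [Finsupp.sum_fintype _ _ (fun _ => rfl)] at h1
  exact h1.trans h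

theorem hom_supp (p : MvPolynomial (Fin N) R) (d : ℕ) :
    ∀ s ∈ (homogeneousComponent d p).support, ∑ i, s i = d := by
  intro s hs
  rw [mem_support_iff, coeff_homogeneousComponent] at hs
  by_contra hne
  apply hs
  rw [if_neg]
  rw [Finsupp.degree_eq_sum]
  exact hne

theorem low_supp {p : MvPolynomial (Fin N) R} {d : ℕ} (h : p.totalDegree ≤ d) :
    ∀ s ∈ (p - homogeneousComponent d p).support, ∑ i, s i ≤ d - 1 := by
  intro s hs
  rw [mem_support_iff, coeff_sub, coeff_homogeneousComponent] at hs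
  have h1 : s.degree ≠ d := by
    intro h2
    rw [if_pos h2, sub_self] at hs
    exact hs rfl
  rw [if_neg h1, sub_zero] at hs
  have h2 := sum_le_deg h s (mem_support_iff.2 hs)
  rw [Finsupp.degree_eq_sum] at h1
  omega

/-- one step -/
theorem step (h : Na w) {φ : R →+* L} (hφ : ∀ r, w (φ r) ≤ 1) {d : ℕ} (hd : 2 ≤ d)
    {G : Fin N → MvPolynomial (Fin N) R} (hG : Reg d G) {c : Fin N → L} {r : ℝ} (hr : 1 < r)
    (hc : ∀ i, w (c i) ≤ r) {i1 : Fin N} (hi1 : w (c i1) = r)
    (hgap : ∀ y : L, 1 < w y → r < w y ^ d) (x : Fin N → L) :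
    r ≤ mx w (tr φ G c x) ∧ (1 < mx w x → mx w x ^ d ≤ mx w (tr φ G c x)) := by
  have hone := one_le_mx (w := w) x
  rcases hone.eq_or_lt with h1 | h1
  · refine ⟨?_, fun h2 => absurd h2 (by rw [← h1]; exact lt_irrefl _)⟩
    have h2 : w (eval₂ φ x (G i1)) ≤ 1 := by
      have := pol_le h hφ (sum_le_deg (hG.1 i1)) le_rfl
        (fun i => (le_mx (w := w) x i).trans h1.symm.le)
      rwa [one_pow] at this
    have h3 : w (tr φ G c x i1) = r := by
      unfold tr
      rw [add_comm, h.eq (by rw [hi1]; exact h2.trans_lt hr), hi1]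
    rw [← h3]
    exact le_mx _ _
  · rcases mx_cases (w := w) x with h2 | ⟨i0, h2⟩
    · rw [h2] at h1
      exact absurd h1 (lt_irrefl _)
    have hx0 : x i0 ≠ 0 := by
      intro h0
      rw [h0, map_zero] at h2
      linarith
    have hgap' := hgap (x i0) (by rw [← h2]; exact h1)
    obtain ⟨i, hi⟩ := top_ge h hφ (T := fun i => homogeneousComponent d (G i))
      (fun i => hom_supp (G i) d) hG.2 x i0 hx0 (fun i => (le_mx x i).trans h2.le)
    have h3 : w (eval₂ φ x (G i - homogeneousComponent d (G i))) ≤ mx w x ^ (d - 1) :=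
      pol_le h hφ (low_supp (hG.1 i)) h1.le (fun j => le_mx x j)
    have h4 : mx w x ^ (d - 1) < mx w x ^ d := pow_lt_pow_right₀ h1 (by omega)
    have e1 : tr φ G c x i = eval₂ φ x (homogeneousComponent d (G i)) +
        (eval₂ φ x (G i - homogeneousComponent d (G i)) + c i) := by
      unfold tr
      rw [eval₂_sub]
      ring
    rw [← h2] at hi hgap'
    have h5 : w (eval₂ φ x (G i - homogeneousComponent d (G i)) + c i) < mx w x ^ d :=
      h.lt_add (h3.trans_lt h4) ((hc i).trans_lt hgap')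
    have h6 : w (tr φ G c x i) = w (eval₂ φ x (homogeneousComponent d (G i))) := by
      rw [e1]
      exact h.eq (h5.trans_le hi)
    have h7 : mx w x ^ d ≤ mx w (tr φ G c x) := by
      refine hi.trans ?_
      rw [← h6]
      exact le_mx _ _
    exact ⟨hgap'.le.trans h7, fun _ => h7⟩

/-- the iterates -/
theorem iter_ge (h : Na w) {φ : R →+* L} (hφ : ∀ r, w (φ r) ≤ 1) {d : ℕ} (hd : 2 ≤ d)
    {G : Fin N → MvPolynomial (Fin N) R} (hG : Reg d G) {c : Fin N → L} {r : ℝ} (hr : 1 < r)
    (hc : ∀ i, w (c i) ≤ r) {i1 : Fin N} (hi1 : w (c i1) = r)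
    (hgap : ∀ y : L, 1 < w y → r < w y ^ d) (x : Fin N → L) (k : ℕ) :
    r ^ d ^ k ≤ mx w ((tr φ G c)^[k + 1] x) := by
  induction k with
  | zero =>
    rw [pow_zero, pow_one, zero_add, Function.iterate_one]
    exact (step h hφ hd hG hr hc hi1 hgap x).1
  | succ k ih =>
    rw [Function.iterate_succ', Function.comp_apply]
    have h1 : 1 < r ^ d ^ k := one_lt_pow₀ hr (by positivity)
    have h2 := (step h hφ hd hG hr hc hi1 hgap ((tr φ G c)^[k + 1] x)).2 (h1.trans_le ih)
    refine le_trans ?_ h2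
    rw [pow_succ, pow_mul]
    exact pow_le_pow_left₀ (by positivity) ih _

end Local

end Pool.Agent.Y733.DYN
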