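import Mathlib
import Pool.Agent.Y733.LS.Bad
import Pool.Agent.Y733.LS.Cnt
import Pool.Agent.Y733.DYN.Ext

/-!
# The heights of the iterates
-/

set_option autoImplicit false
set_option linter.unusedSectionVars false

namespace Pool.Agent.Y733.DYN

open NumberField IsDedekindDomain Pool.Agent.H691R3 Pool.Agent.W223.AK Pool.Agent.Y733.LS
open Pool.Agent.Y733.UD (fv_int_le)

theorem sum_biUnion_le {ι α : Type} [DecidableEq α] (s : Finset ι) (T : ι → Finset α)
    (f : α → ℝ) (hf : ∀ v, 0 ≤ f v) : ∑ v ∈ s.biUnion T, f v ≤ ∑ i ∈ s, ∑ v ∈ T i, f v := by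
  classical
  induction s using Finset.induction_on with
  | empty => simp
  | insert a s ha ih =>
    rw [Finset.sum_insert ha, Finset.biUnion_insert]
    have h3 := Finset.sum_union_inter (s₁ := T a) (s₂ := s.biUnion T) (f := f)
    have h4 : 0 ≤ ∑ v ∈ T a ∩ s.biUnion T, f v := Finset.sum_nonneg fun v _ => hf v
    linarith

section One

variable {K : Type} [Field K] [NumberField K]

/-- the simple poles and the multiple poles -/
theorem two_le (c : K) (T : Finset (Pr K)) (hT : ∀ v ∈ T, Nv v < fv v c) :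
    2 * ∑ v ∈ T, Real.log (Nv v) + sp c ≤ ht c := by
  classical
  have hfin := ne_sets (K := K) one_ne_zero one_ne_zero c
  set s := hfin.toFinset with hs
  have hsp : ∀ v, Sp c v → v ∈ s := by
    intro v hv
    rw [hs, Set.Finite.mem_toFinset]
    right
    right
    rw [hv.2.2]
    exact Nv_one_lt v
  have h1 := sp_eq c (T ∪ s) (fun v hv => Finset.mem_union_right _ (hsp v hv))
  have h2 := sum_max_le c (T ∪ s)
  have h3 : ∑ v ∈ T, Real.log (Nv v) = ∑ v ∈ T ∪ s, if v ∈ T then Real.log (Nv v) else 0 := by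
    rw [Finset.sum_ite_mem, Finset.union_inter_cancel_left]
  rw [h1, h3, Finset.mul_sum, ← Finset.sum_add_distrib]
  refine le_trans (Finset.sum_le_sum fun v _ => ?_) h2
  have hlog := log_Nv_pos v
  by_cases hv : v ∈ T
  · rw [if_pos hv]
    have h4 := hT v hv
    have h5 : ¬ Sp c v := fun h => by rw [h.2.2] at h4; exact lt_irrefl _ h4
    rw [if_neg h5, add_zero]
    have h6 : c ≠ 0 := by
      rintro rfl
      rw [map_zero] at h4
      linarith [Nv_pos v]
    obtain ⟨m, hm⟩ := fv_zpow v h6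
    rw [hm] at h4 ⊢
    have h7 : 2 ≤ m := by
      by_contra hcon
      push Not at hcon
      have h8 : Nv v ^ m ≤ Nv v ^ (1 : ℤ) := zpow_le_zpow_right₀ (Nv_one_lt v).le (by omega)
      rw [zpow_one] at h8
      linarith
    have h9 : Real.log (Nv v ^ m) ≤ Real.log (max (Nv v ^ m) 1) :=
      Real.log_le_log (zpow_pos (Nv_pos v) _) (le_max_left _ _)
    rw [Real.log_zpow] at h9
    have h10 : (2 : ℝ) ≤ m := by exact_mod_cast h7
    nlinarith
  · rw [if_neg hv, mul_zero, zero_add]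
    split_ifs with h4
    · rw [h4.2.2, max_eq_left (Nv_one_lt v).le]
    · exact Real.log_nonneg (le_max_right _ _)

/-- places where the vector `c` has a simple pole -/
theorem exists_S {N : ℕ} {η : ℝ} (hη : 0 ≤ η) (c : Fin N → K)
    (hc : ∀ i, (1 - η) * ht (c i) ≤ sp (c i)) (i1 : Fin N) :
    ∃ S : Finset (Pr K), (∀ v ∈ S, (∀ i, fv v (c i) ≤ Nv v) ∧ ∃ i, fv v (c i) = Nv v) ∧
      (1 - (N + 1) * η / 2) * ht (c i1) ≤ ∑ v ∈ S, Real.log (Nv v) := by
  classical
  obtain ⟨i0, -, hi0⟩ := Finset.exists_max_image (Finset.univ : Finset (Fin N))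
    (fun i => ht (c i)) ⟨i1, Finset.mem_univ _⟩
  have hmax : ∀ i, ht (c i) ≤ ht (c i0) := fun i => hi0 i (Finset.mem_univ _)
  have hfin := ne_sets (K := K) one_ne_zero one_ne_zero (c i0)
  set s := hfin.toFinset with hs
  have hsp : ∀ v, Sp (c i0) v → v ∈ s := by
    intro v hv
    rw [hs, Set.Finite.mem_toFinset]
    right
    right
    rw [hv.2.2]
    exact Nv_one_lt v
  have h1 := sp_eq (c i0) s hsp
  rw [← Finset.sum_filter] at h1
  set s0 := s.filter (Sp (c i0)) with hs0
  set S := s0.filter fun v => ∀ i, fv v (c i) ≤ Nv v with hS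
  set T : Fin N → Finset (Pr K) := fun i => s0.filter fun v => Nv v < fv v (c i) with hT
  have hSmem : ∀ v ∈ S, (∀ i, fv v (c i) ≤ Nv v) ∧ ∃ i, fv v (c i) = Nv v := by
    intro v hv
    rw [hS, Finset.mem_filter, hs0, Finset.mem_filter] at hv
    exact ⟨hv.2, i0, hv.1.2.2.2⟩
  have hlog : ∀ v : Pr K, 0 ≤ Real.log (Nv v) := fun v => (log_Nv_pos v).le
  have hcov : s0 ⊆ S ∪ (Finset.univ.erase i0).biUnion T := by
    intro v hv
    rw [Finset.mem_union]
    by_cases h : ∀ i, fv v (c i) ≤ Nv v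
    · left
      rw [hS, Finset.mem_filter]
      exact ⟨hv, h⟩
    · right
      push Not at h
      obtain ⟨i, hi⟩ := h
      rw [Finset.mem_biUnion]
      refine ⟨i, ?_, ?_⟩
      · rw [Finset.mem_erase]
        refine ⟨?_, Finset.mem_univ _⟩
        rintro rfl
        rw [hs0, Finset.mem_filter] at hv
        rw [hv.2.2.2] at hi
        exact lt_irrefl _ hi
      · rw [hT]
        simp only [Finset.mem_filter]
        exact ⟨hv, hi⟩
  have h2 : sp (c i0) ≤ ∑ v ∈ S, Real.log (Nv v) +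
      ∑ i ∈ Finset.univ.erase i0, ∑ v ∈ T i, Real.log (Nv v) := by
    rw [h1]
    refine (Finset.sum_le_sum_of_subset_of_nonneg hcov fun v _ _ => hlog v).trans ?_
    have h3 := Finset.sum_union_inter (s₁ := S) (s₂ := (Finset.univ.erase i0).biUnion T)
      (f := fun v : Pr K => Real.log (Nv v))
    have h4 : 0 ≤ ∑ v ∈ S ∩ (Finset.univ.erase i0).biUnion T, Real.log (Nv v) :=
      Finset.sum_nonneg fun v _ => hlog v
    have h5 : ∑ v ∈ (Finset.univ.erase i0).biUnion T, Real.log (Nv v) ≤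
        ∑ i ∈ Finset.univ.erase i0, ∑ v ∈ T i, Real.log (Nv v) :=
      sum_biUnion_le _ _ _ fun v => hlog v
    linarith
  have h6 : ∀ i, ∑ v ∈ T i, Real.log (Nv v) ≤ η / 2 * ht (c i0) := by
    intro i
    have h7 := two_le (c i) (T i) (fun v hv => by
      rw [hT] at hv
      exact (Finset.mem_filter.1 hv).2)
    have h8 := hc i
    have h9 := hmax i
    nlinarith
  have h10 : ∑ i ∈ Finset.univ.erase i0, ∑ v ∈ T i, Real.log (Nv v) ≤
      (N - 1) * (η / 2 * ht (c i0)) := by
    refine (Finset.sum_le_sum fun i _ => h6 i).trans (le_of_eq ?_)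
    rw [Finset.sum_const, Finset.card_erase_of_mem (Finset.mem_univ _), Finset.card_univ,
      Fintype.card_fin, nsmul_eq_mul, Nat.cast_sub (by have := i0.2; omega), Nat.cast_one]
  have h11 := hc i0
  refine ⟨S, hSmem, ?_⟩
  have h12 : (1 - (N + 1) * η / 2) * ht (c i0) ≤ ∑ v ∈ S, Real.log (Nv v) := by linarith
  rcases le_total 0 (1 - (N + 1) * η / 2) with h13 | h13
  · exact (mul_le_mul_of_nonneg_left (hmax i1) h13).trans h12
  · refine le_trans ?_ (Finset.sum_nonneg fun v _ => hlog v)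
    exact mul_nonpos_of_nonpos_of_nonneg h13 (ht_nonneg _)

end One

section Two

variable {K L : Type} [Field K] [NumberField K] [Field L] [NumberField L] [Algebra K L]

theorem int_ext (w : Pr L) (a : 𝓞 K) : fv w (algebraMap (𝓞 K) L a) ≤ 1 := by
  rw [IsScalarTower.algebraMap_apply (𝓞 K) (𝓞 L) L]
  exact fv_int_le w _

/-- the map over the extension -/
noncomputable def dyn (L : Type) [Field L] [NumberField L] [Algebra K L] {N : ℕ}
    (G : Fin N → MvPolynomial (Fin N) (𝓞 K)) (c : Fin N → K) : (Fin N → L) → (Fin N → L) :=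
  tr (algebraMap (𝓞 K) L) G fun i => algebraMap K L (c i)

/-- **heights of the iterates** -/
theorem ht_iter {N : ℕ} {c : Fin N → K} {d : ℕ} (hL : Module.finrank K L < d) (hd : 2 ≤ d)
    {G : Fin N → MvPolynomial (Fin N) (𝓞 K)} (hG : Reg d G) (S : Finset (Pr K))
    (hS : ∀ v ∈ S, (∀ i, fv v (c i) ≤ Nv v) ∧ ∃ i, fv v (c i) = Nv v) (x : Fin N → L) (k : ℕ) :
    (d : ℝ) ^ k * (Module.finrank K L * ∑ v ∈ S, Real.log (Nv v)) ≤
      Height.logHeight (Fin.cons 1 ((dyn L G c)^[k + 1] x) : Fin (N + 1) → L) := by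
  classical
  have hdisj : ∀ v ∈ S, ∀ v' ∈ S, v ≠ v' → Disjoint (Ab L v) (Ab L v') :=
    fun v _ v' _ h => Ab_disj h
  refine le_trans ?_ (sum_le_ht (S.biUnion (Ab L)) ((dyn L G c)^[k + 1] x))
  rw [Finset.sum_biUnion hdisj, Finset.mul_sum, Finset.mul_sum]
  refine Finset.sum_le_sum fun v hv => ?_
  rw [← sum_Ab (L := L) v, Finset.mul_sum]
  refine Finset.sum_le_sum fun w hw => ?_
  obtain ⟨h1, i1, h2⟩ := hS v hv
  have hN := Nv_one_lt w
  have hN0 := Nv_pos w
  have hri := ri_pos hw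
  have hrd : ri v w < d := (ri_le hw).trans_lt hL
  have key := iter_ge (w := fv w) (φ := algebraMap (𝓞 K) L) (fv_Na w) (int_ext w) hd hG
    (c := fun i => algebraMap K L (c i)) (r := Nv w ^ ri v w) (one_lt_pow₀ hN (by omega)) ?_
    (i1 := i1) ?_ ?_ x k
  · have h3 : (d : ℝ) ^ k * ((ri v w : ℝ) * Real.log (Nv w)) =
        Real.log ((Nv w ^ ri v w) ^ d ^ k) := by
      rw [Real.log_pow, Real.log_pow]
      push_cast
      ring
    rw [h3]
    exact Real.log_le_log (by positivity) key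
  · intro i
    rcases eq_or_ne (c i) 0 with h3 | h3
    · rw [h3, map_zero, map_zero]
      positivity
    · obtain ⟨m, hm⟩ := fv_zpow v h3
      have h4 : m ≤ 1 := by
        by_contra hcon
        push Not at hcon
        have h5 := h1 i
        rw [hm] at h5
        have h6 : Nv v ^ (1 : ℤ) < Nv v ^ m := zpow_lt_zpow_right₀ (Nv_one_lt v) hcon
        rw [zpow_one] at h6
        linarith
      rw [fv_ext hw hm, ← zpow_natCast]
      apply zpow_le_zpow_right₀ hN.le
      have : (0 : ℤ) ≤ ri v w := Int.natCast_nonneg _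
      nlinarith
  · have h3 : fv v (c i1) = Nv v ^ (1 : ℤ) := by rw [h2, zpow_one]
    rw [fv_ext hw h3, one_mul, zpow_natCast]
  · intro y hy
    have hy0 : y ≠ 0 := by
      rintro rfl
      rw [map_zero] at hy
      linarith
    obtain ⟨m, hm⟩ := fv_zpow w hy0
    rw [hm] at hy ⊢
    have h4 : 1 ≤ m := by
      by_contra hcon
      push Not at hcon
      have h6 : Nv w ^ m ≤ Nv w ^ (0 : ℤ) := zpow_le_zpow_right₀ hN.le (by omega)
      rw [zpow_zero] at h6
      linarith
    rw [← zpow_natCast, ← zpow_natCast, ← zpow_mul]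
    apply zpow_lt_zpow_right₀ hN
    have : (ri v w : ℤ) < d := by exact_mod_cast hrd
    nlinarith

end Two

/-- translations which push all points away -/
def RepP (κ : ℝ) {K : Type} [Field K] [NumberField K] {N : ℕ} (c : Fin N → K) : Prop :=
  ∀ (d : ℕ) (G : Fin N → MvPolynomial (Fin N) (𝓞 K)), 2 ≤ d → Reg d G →
    ∀ (L : Type) [Field L] [NumberField L] [Algebra K L], Module.finrank K L < d →
      ∀ (x : Fin N → L) (k : ℕ) (i : Fin N),
        (d : ℝ) ^ k * (Module.finrank K L * (κ * (Module.finrank ℚ K + ht (c i)))) ≤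
          Height.logHeight (Fin.cons 1 ((dyn L G c)^[k + 1] x) : Fin (N + 1) → L)

theorem rep_of {K : Type} [Field K] [NumberField K] {N : ℕ} {κ κ' : ℝ} (hκ : 0 ≤ κ)
    (hκκ : κ < κ') (c : Fin N → K)
    (hc : ∀ i, (1 - 2 * (1 - κ') / (N + 1)) * ht (c i) ≤ sp (c i)) (hκ1 : κ' ≤ 1)
    (hbig : ∃ i, Module.finrank ℚ K * (κ / (κ' - κ)) ≤ ht (c i)) : RepP κ c := by
  intro d G hd hG L _ _ _ hL x k i
  obtain ⟨i0, hi0⟩ := hbig
  have hN : (0 : ℝ) < (N : ℝ) + 1 := by positivity
  have hη : 0 ≤ 2 * (1 - κ') / ((N : ℝ) + 1) := by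
    apply div_nonneg _ hN.le
    linarith
  have e1 : 1 - ((N : ℝ) + 1) * (2 * (1 - κ') / ((N : ℝ) + 1)) / 2 = κ' := by
    field_simp
    ring
  obtain ⟨im, -, him⟩ := Finset.exists_max_image (Finset.univ : Finset (Fin N))
    (fun i => ht (c i)) ⟨i, Finset.mem_univ _⟩
  have h1 : ht (c i) ≤ ht (c im) := him i (Finset.mem_univ _)
  have h2 : ht (c i0) ≤ ht (c im) := him i0 (Finset.mem_univ _)
  obtain ⟨S, hS, hsum⟩ := exists_S hη c hc im
  rw [e1] at hsum
  refine le_trans ?_ (ht_iter hL hd hG S hS x k)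
  refine mul_le_mul_of_nonneg_left (mul_le_mul_of_nonneg_left ?_ (Nat.cast_nonneg _))
    (by positivity)
  refine le_trans ?_ hsum
  have h3 : (Module.finrank ℚ K : ℝ) * κ ≤ (κ' - κ) * ht (c im) := by
    have h4 : 0 < κ' - κ := by linarith
    have h5 := mul_le_mul_of_nonneg_left (hi0.trans h2) h4.le
    have h6 : (κ' - κ) * (Module.finrank ℚ K * (κ / (κ' - κ))) = Module.finrank ℚ K * κ := by
      field_simp
    linarith
  nlinarith [mul_le_mul_of_nonneg_left h1 hκ]

end Pool.Agent.Y733.DYN
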