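import Mathlib
import Pool.Agent.Y733.LS.Cnt
import Pool.Agent.Y733.DYN.Main

/-!
# Counting the vectors, uniformly in all number fields
-/

set_option autoImplicit false
set_option linter.unusedSectionVars false

namespace Pool.Agent.Y733.DYN

open NumberField IsDedekindDomain Pool.Agent.H691R3 Pool.Agent.W223.AK Pool.Agent.Y733.LS
open Pool.Agent.Y733.UD

section One

variable {K : Type} [Field K] [NumberField K]

theorem ht_log (j : K) : Height.logHeight₁ j = ht j := by
  rw [logHeight_eq, ht_eq_Sa]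

theorem sp_nonneg (j : K) : 0 ≤ sp j := by
  unfold sp
  refine finsum_nonneg fun v => ?_
  split_ifs
  · exact (log_Nv_pos v).le
  · exact le_rfl

theorem fin_ht (X : ℝ) : {x : K | ht x ≤ X}.Finite := by
  refine (NumberField.finite_setOfPred_logHeight₁_le (K := K) X).subset ?_
  intro x hx
  show Height.logHeight₁ x ≤ X
  rw [ht_log]
  exact hx

variable (K) in
/-- the elements of height at most `X` -/
noncomputable def Fb (X : ℝ) : Finset K := (fin_ht (K := K) X).toFinset

theorem mem_Fb {X : ℝ} {x : K} : x ∈ Fb K X ↔ ht x ≤ X := by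
  unfold Fb
  rw [Set.Finite.mem_toFinset]
  rfl

end One

theorem fb_card {ε : ℝ} (hε : 0 < ε) : ∃ A : ℝ, 0 ≤ A ∧
    ∀ (K : Type) [Field K] [NumberField K] (X : ℝ), 0 ≤ X →
      ((Fb K X).card : ℝ) ≤ Real.exp (Module.finrank ℚ K * A + (2 + ε) * X) := by
  classical
  obtain ⟨A, hA, h⟩ := all_card hε
  refine ⟨A + Real.log 3, by positivity, ?_⟩
  intro K _ _ X hX
  have hn1 := finrank_one_le K
  set E := (Fb K X).filter fun x => Pt x with hE
  have h1 := h K X E (by
    intro x hx
    rw [hE, Finset.mem_filter, mem_Fb] at hx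
    exact ⟨hx.2, hx.1⟩)
  have hsub : Fb K X ⊆ E ∪ {0, -1} := by
    intro x hx
    rw [Finset.mem_union]
    by_cases hP : Pt x
    · left
      rw [hE, Finset.mem_filter]
      exact ⟨hx, hP⟩
    · right
      unfold Pt at hP
      rw [Finset.mem_insert, Finset.mem_singleton]
      by_cases h0 : x = 0
      · exact Or.inl h0
      · right
        by_contra h2
        apply hP
        refine ⟨h0, ?_⟩
        intro h3
        exact h2 (eq_neg_of_add_eq_zero_left h3)
  have h2 : ((Fb K X).card : ℝ) ≤ (E.card : ℝ) + 2 := by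
    have h3 := (Finset.card_le_card hsub).trans (Finset.card_union_le _ _)
    have h4 : ({0, -1} : Finset K).card ≤ 2 := Finset.card_le_two
    exact_mod_cast h3.trans (by omega)
  have h5 : (1 : ℝ) ≤ Real.exp (Module.finrank ℚ K * A + (2 + ε) * X) := by
    apply Real.one_le_exp
    positivity
  have h6 : (3 : ℝ) ≤ Real.exp (Module.finrank ℚ K * Real.log 3) := by
    have h4 : Real.exp (Real.log 3) = 3 := Real.exp_log (by norm_num)
    rw [← h4]
    apply Real.exp_le_exp.2
    rw [h4]
    have : 0 ≤ Real.log 3 := Real.log_nonneg (by norm_num)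
    nlinarith
  have e1 : Real.exp (Module.finrank ℚ K * (A + Real.log 3) + (2 + ε) * X) =
      Real.exp (Module.finrank ℚ K * Real.log 3) *
        Real.exp (Module.finrank ℚ K * A + (2 + ε) * X) := by
    rw [← Real.exp_add]
    congr 1
    ring
  rw [e1]
  nlinarith

/-- the elements with few simple poles -/
theorem bad_card {ε : ℝ} (hε : 0 < ε) : ∃ A : ℝ, 0 ≤ A ∧
    ∀ (K : Type) [Field K] [NumberField K] (η X : ℝ) (E : Finset K), η ≤ 1 →
      (∀ j ∈ E, ht j ≤ X ∧ sp j < (1 - η) * ht j) →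
        (E.card : ℝ) ≤ Real.exp (Module.finrank ℚ K * A + (2 - η / 2 + ε) * X) := by
  obtain ⟨A, hA, h⟩ := sp_count hε
  refine ⟨A, hA, ?_⟩
  intro K _ _ η X E hη hE
  refine h K η X E (by linarith) fun j hj => ?_
  obtain ⟨h1, h2⟩ := hE j hj
  refine ⟨?_, h1, h2.le⟩
  have h3 : 0 < ht j := by
    by_contra hcon
    have h4 : ht j = 0 := le_antisymm (not_lt.1 hcon) (ht_nonneg j)
    rw [h4, mul_zero] at h2
    linarith [sp_nonneg j]
  constructor
  · rintro rfl
    rw [← ht_log, Height.logHeight₁_zero] at h3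
    exact lt_irrefl _ h3
  · intro h4
    have h5 : j = -1 := eq_neg_of_add_eq_zero_left h4
    rw [h5, ← ht_log, Height.logHeight₁_eq_log_mulHeight₁] at h3
    have h6 : Height.mulHeight₁ (-1 : K) = 1 := by
      have h7 := Height.mulHeight₁_pow (-1 : K) 2
      rw [show ((-1 : K)) ^ 2 = 1 by norm_num, Height.mulHeight₁_one] at h7
      have h8 := Height.one_le_mulHeight₁ (-1 : K)
      nlinarith
    rw [h6, Real.log_one] at h3
    exact lt_irrefl _ h3

/-- **the exceptional vectors** -/
theorem exc_card {N : ℕ} (hN : 1 ≤ N) {κ ε : ℝ} (hκ0 : 0 ≤ κ) (hκ1 : κ < 1) (hε : 0 < ε) :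
    ∃ A : ℝ, 0 ≤ A ∧ ∀ (K : Type) [Field K] [NumberField K] (X : ℝ) (E : Finset (Fin N → K)),
      0 ≤ X → (∀ c ∈ E, (∀ i, ht (c i) ≤ X) ∧ ¬ RepP κ c) →
        (E.card : ℝ) ≤
          Real.exp (Module.finrank ℚ K * A + (2 * N - (1 - κ) / (N + 1) + ε) * X) := by
  classical
  have hNr : (1 : ℝ) ≤ N := by exact_mod_cast hN
  set ε1 : ℝ := ε / (2 * N) with hε1
  have hε10 : 0 < ε1 := by positivity
  obtain ⟨A1, hA1, h1⟩ := fb_card hε10
  obtain ⟨A2, hA2, h2⟩ := bad_card hε10
  set t : ℝ := min (ε / 2) ((1 - κ) / 2) with ht0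
  have ht1 : 0 < t := lt_min (by positivity) (by linarith)
  have ht2 : t ≤ ε / 2 := min_le_left _ _
  have ht3 : t ≤ (1 - κ) / 2 := min_le_right _ _
  set κ' : ℝ := κ + t with hκ'
  have hκκ : κ < κ' := by linarith
  have hκ'1 : κ' < 1 := by linarith
  set η : ℝ := 2 * (1 - κ') / (N + 1) with hη
  have hN1 : (0 : ℝ) < (N : ℝ) + 1 := by linarith
  have hη1 : η ≤ 1 := by
    rw [hη, div_le_one hN1]
    linarith
  set L0 : ℝ := κ / (κ' - κ) with hL0
  have hL00 : 0 ≤ L0 := div_nonneg hκ0 (by linarith)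
  set B1 : ℝ := A2 + (N - 1) * A1 with hB1
  set B2 : ℝ := N * (A1 + (2 + ε1) * L0) with hB2
  have hB10 : 0 ≤ B1 := by
    have : 0 ≤ ((N : ℝ) - 1) * A1 := mul_nonneg (by linarith) hA1
    linarith
  have hB20 : 0 ≤ B2 := by positivity
  have hlN : 0 ≤ Real.log ((N : ℝ) + 1) := Real.log_nonneg (by linarith)
  refine ⟨B1 + B2 + Real.log (N + 1), by positivity, ?_⟩
  intro K _ _ X E hX hE
  set n := Module.finrank ℚ K with hn
  have hn1 : (1 : ℝ) ≤ n := finrank_one_le K
  have hn0 : (0 : ℝ) ≤ n := by linarith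
  set Bd : Finset K := (Fb K X).filter fun x => sp x < (1 - η) * ht x with hBd
  set Q : Fin N → Finset (Fin N → K) := fun i =>
    Fintype.piFinset fun j => if j = i then Bd else Fb K X with hQ
  set Q0 : Finset (Fin N → K) := Fintype.piFinset fun _ => Fb K (n * L0) with hQ0
  have hcov : E ⊆ (Finset.univ.biUnion Q) ∪ Q0 := by
    intro c hc
    obtain ⟨g1, g2⟩ := hE c hc
    rw [Finset.mem_union]
    by_contra hcon
    push Not at hcon
    obtain ⟨g3, g4⟩ := hcon
    apply g2
    refine rep_of hκ0 hκκ c ?_ hκ'1.le ?_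
    · intro i
      by_contra g5
      push Not at g5
      apply g3
      rw [Finset.mem_biUnion]
      refine ⟨i, Finset.mem_univ _, ?_⟩
      rw [hQ]
      simp only [Fintype.mem_piFinset]
      intro j
      split_ifs with hji
      · subst hji
        rw [hBd, Finset.mem_filter, mem_Fb]
        exact ⟨g1 j, g5⟩
      · rw [mem_Fb]
        exact g1 j
    · by_contra g5
      push Not at g5
      apply g4
      rw [hQ0, Fintype.mem_piFinset]
      intro j
      rw [mem_Fb]
      exact (g5 j).le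
  have hBc : (Bd.card : ℝ) ≤ Real.exp (n * A2 + (2 - η / 2 + ε1) * X) := by
    refine h2 K η X Bd hη1 fun j hj => ?_
    rw [hBd, Finset.mem_filter, mem_Fb] at hj
    exact hj
  have hFc : ((Fb K X).card : ℝ) ≤ Real.exp (n * A1 + (2 + ε1) * X) := h1 K X hX
  have hF0 : ((Fb K (n * L0)).card : ℝ) ≤ Real.exp (n * (A1 + (2 + ε1) * L0)) := by
    refine (h1 K (n * L0) (by positivity)).trans (le_of_eq ?_)
    congr 1
    ring
  set D : ℝ := 2 * N - (1 - κ) / (N + 1) + ε with hD
  have hDe : 2 * N - η / 2 + N * ε1 ≤ D := by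
    have e1 : η / 2 = (1 - κ) / (N + 1) - t / (N + 1) := by
      rw [hη, hκ']
      field_simp
      ring
    have e2 : N * ε1 = ε / 2 := by
      rw [hε1]
      field_simp
    have e3 : t / ((N : ℝ) + 1) ≤ t := div_le_self ht1.le (by linarith)
    rw [e1, e2, hD]
    linarith
  have hD0 : 0 ≤ D := by
    have h3 : (1 - κ) / ((N : ℝ) + 1) ≤ 1 := by
      rw [div_le_one hN1]
      linarith
    rw [hD]
    linarith
  have hQc : ∀ i, ((Q i).card : ℝ) ≤ Real.exp (n * B1 + D * X) := by
    intro i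
    have e1 : ((Q i).card : ℝ) = Bd.card * ((Fb K X).card : ℝ) ^ (N - 1) := by
      rw [hQ]
      simp only
      rw [Fintype.card_piFinset]
      have e2 : ∀ j : Fin N, (if j = i then Bd else Fb K X).card =
          if j = i then Bd.card else (Fb K X).card := by
        intro j
        split_ifs <;> rfl
      simp only [e2]
      rw [Finset.prod_ite, Finset.prod_const, Finset.prod_const]
      have e3 : (Finset.univ.filter fun j : Fin N => j = i).card = 1 := by
        rw [Finset.filter_eq' Finset.univ i, if_pos (Finset.mem_univ _), Finset.card_singleton]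
      have e4 : (Finset.univ.filter fun j : Fin N => ¬ j = i).card = N - 1 := by
        rw [Finset.filter_ne' Finset.univ i, Finset.card_erase_of_mem (Finset.mem_univ _),
          Finset.card_univ, Fintype.card_fin]
      rw [e3, e4, pow_one]
      push_cast
      rfl
    rw [e1]
    calc (Bd.card : ℝ) * ((Fb K X).card : ℝ) ^ (N - 1)
        ≤ Real.exp (n * A2 + (2 - η / 2 + ε1) * X) *
          Real.exp (n * A1 + (2 + ε1) * X) ^ (N - 1) :=
          mul_le_mul hBc (pow_le_pow_left₀ (Nat.cast_nonneg _) hFc _) (by positivity)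
            (Real.exp_pos _).le
      _ = Real.exp (n * B1 + (2 * N - η / 2 + N * ε1) * X) := by
          rw [← Real.exp_nat_mul, ← Real.exp_add]
          congr 1
          rw [Nat.cast_sub hN, Nat.cast_one, hB1]
          ring
      _ ≤ _ := by
          apply Real.exp_le_exp.2
          have := mul_le_mul_of_nonneg_right hDe hX
          linarith
  have hQ0c : (Q0.card : ℝ) ≤ Real.exp (n * B2) := by
    have e1 : (Q0.card : ℝ) = ((Fb K (n * L0)).card : ℝ) ^ N := by
      rw [hQ0, Fintype.card_piFinset, Finset.prod_const, Finset.card_univ, Fintype.card_fin]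
      push_cast
      rfl
    rw [e1]
    refine (pow_le_pow_left₀ (Nat.cast_nonneg _) hF0 _).trans (le_of_eq ?_)
    rw [← Real.exp_nat_mul]
    congr 1
    rw [hB2]
    ring
  have hcard : (E.card : ℝ) ≤ ∑ i : Fin N, ((Q i).card : ℝ) + Q0.card := by
    have h3 := (Finset.card_le_card hcov).trans (Finset.card_union_le _ _)
    have h4 := h3.trans (Nat.add_le_add_right Finset.card_biUnion_le _)
    exact_mod_cast h4
  have hDX : 0 ≤ D * X := mul_nonneg hD0 hX
  have h5 : ∀ y : ℝ, y ≤ n * (B1 + B2) + D * X → Real.exp y ≤ Real.exp (n * (B1 + B2) + D * X) :=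
    fun y hy => Real.exp_le_exp.2 hy
  have h6 : (E.card : ℝ) ≤ (N + 1) * Real.exp (n * (B1 + B2) + D * X) := by
    have h7 : ∑ i : Fin N, ((Q i).card : ℝ) ≤ N * Real.exp (n * (B1 + B2) + D * X) := by
      refine (Finset.sum_le_sum fun i _ => (hQc i).trans (h5 _ ?_)).trans (le_of_eq ?_)
      · nlinarith
      · rw [Finset.sum_const, Finset.card_univ, Fintype.card_fin, nsmul_eq_mul]
    have h8 : (Q0.card : ℝ) ≤ Real.exp (n * (B1 + B2) + D * X) := hQ0c.trans (h5 _ (by nlinarith))
    linarith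
  refine h6.trans ?_
  have h9 : (N : ℝ) + 1 ≤ Real.exp (n * Real.log (N + 1)) := by
    have h4 : Real.exp (Real.log ((N : ℝ) + 1)) = N + 1 := Real.exp_log hN1
    calc (N : ℝ) + 1 = Real.exp (Real.log ((N : ℝ) + 1)) := h4.symm
      _ ≤ _ := Real.exp_le_exp.2 (by nlinarith)
  calc ((N : ℝ) + 1) * Real.exp (n * (B1 + B2) + D * X)
      ≤ Real.exp (n * Real.log (N + 1)) * Real.exp (n * (B1 + B2) + D * X) :=
        mul_le_mul_of_nonneg_right h9 (Real.exp_pos _).le
    _ = _ := by
        rw [← Real.exp_add]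
        congr 1
        ring

/-- the number of all vectors -/
theorem box_card_low {N : ℕ} {ε : ℝ} (hε : 0 < ε) : ∃ A : ℝ, 0 ≤ A ∧
    ∀ (K : Type) [Field K] [NumberField K] (M : ℝ), Real.log 8 + rd K / 2 ≤ M →
      ∃ E : Finset (Fin N → K), (∀ c ∈ E, ∀ i, ht (c i) ≤ Module.finrank ℚ K * M) ∧
        Real.exp (Module.finrank ℚ K * ((2 * N - ε) * M - (2 * N + ε) * rd K - A)) ≤ E.card := by
  classical
  set ε1 : ℝ := min (ε / (4 * (N + 1))) 1 with hε1
  have hN1 : (0 : ℝ) < (N : ℝ) + 1 := by positivity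
  have h1 : 0 < ε1 := lt_min (by positivity) one_pos
  have h2 : ε1 ≤ 1 := min_le_right _ _
  have h3 : 4 * (N * ε1) ≤ ε := by
    have h4 : ε1 ≤ ε / (4 * (N + 1)) := min_le_left _ _
    rw [le_div_iff₀ (by positivity)] at h4
    nlinarith
  obtain ⟨A, hA, h⟩ := low_count h1 h2
  refine ⟨N * A, by positivity, ?_⟩
  intro K _ _ M hM
  obtain ⟨E, hE, hcard⟩ := h K M hM
  refine ⟨Fintype.piFinset fun _ => E, ?_, ?_⟩
  · intro c hc i
    rw [Fintype.mem_piFinset] at hc
    exact (hE _ (hc i)).2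
  · have e1 : ((Fintype.piFinset fun _ : Fin N => E).card : ℝ) = (E.card : ℝ) ^ N := by
      rw [Fintype.card_piFinset, Finset.prod_const, Finset.card_univ, Fintype.card_fin]
      push_cast
      rfl
    rw [e1]
    refine le_trans ?_ (pow_le_pow_left₀ (Real.exp_pos _).le hcard N)
    rw [← Real.exp_nat_mul]
    apply Real.exp_le_exp.2
    have hn0 : (0 : ℝ) ≤ Module.finrank ℚ K := Nat.cast_nonneg _
    have hrd := rd_nonneg K
    have hM0 : 0 ≤ M := by
      have : 0 ≤ Real.log 8 := Real.log_nonneg (by norm_num)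
      linarith
    have h5 : (2 * (N : ℝ) - ε) * M - (2 * N + ε) * rd K - N * A ≤
        N * ((2 - 4 * ε1) * M - (2 + ε1) * rd K - A) := by
      have h6 : 4 * (N * ε1) * M ≤ ε * M := mul_le_mul_of_nonneg_right h3 hM0
      have h7 : (N * ε1) * rd K ≤ ε * rd K := by
        apply mul_le_mul_of_nonneg_right _ hrd
        have : 0 ≤ (N : ℝ) * ε1 := by positivity
        linarith
      nlinarith
    have h8 := mul_le_mul_of_nonneg_left h5 hn0
    linarith

end Pool.Agent.Y733.DYN
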